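import Mathlib

/-!
# Periodic digits and rational approximations
-/

set_option autoImplicit false

namespace Pool.Agent.Zk75.ZM

/-- the `i`-th digit of `x` after the point in base `b` -/
noncomputable def digit (b : ℕ) (x : ℝ) (i : ℕ) : ℤ := ⌊x * (b : ℝ) ^ i⌋ % (b : ℤ)

lemma floor_succ {b : ℕ} (hb : 2 ≤ b) (x : ℝ) (i : ℕ) :
    ⌊x * (b : ℝ) ^ (i + 1)⌋ = b * ⌊x * (b : ℝ) ^ i⌋ + digit b x (i + 1) := by
  have hb0 : (0 : ℝ) < b := by positivity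
  set X : ℤ := ⌊x * (b : ℝ) ^ i⌋ with hX
  have h1 : (X : ℝ) ≤ x * (b : ℝ) ^ i := Int.floor_le _
  have h2 : x * (b : ℝ) ^ i < X + 1 := Int.lt_floor_add_one _
  have e : x * (b : ℝ) ^ (i + 1) = x * (b : ℝ) ^ i * b := by ring
  have h3 : (b : ℤ) * X ≤ ⌊x * (b : ℝ) ^ (i + 1)⌋ := by
    rw [Int.le_floor, e]
    push_cast
    nlinarith
  have h4 : ⌊x * (b : ℝ) ^ (i + 1)⌋ < (b : ℤ) * X + b := by
    rw [Int.floor_lt, e]
    push_cast
    nlinarith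
  unfold digit
  set Y : ℤ := ⌊x * (b : ℝ) ^ (i + 1)⌋ with hY
  have h5 : Y % (b : ℤ) = Y - b * X := by
    have h6 : Y = (Y - b * X) + b * X := by ring
    conv_lhs => rw [h6]
    rw [Int.add_mul_emod_self_left]
    exact Int.emod_eq_of_lt (by omega) (by omega)
  rw [h5]
  ring

/-- periodic digits up to the place `R` give an approximation -/
theorem approx_of_periodic {b : ℕ} (hb : 2 ≤ b) (x : ℝ) (r s R : ℕ) (hs : 1 ≤ s) (hR : r + s ≤ R)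
    (h : ∀ i, r < i → i + s ≤ R → digit b x (i + s) = digit b x i) :
    ∃ a : ℤ, |x - (a : ℝ) / ((b ^ r * (b ^ s - 1) : ℕ) : ℝ)| ≤ 2 / (b : ℝ) ^ R := by
  have hb0 : (0 : ℝ) < b := by positivity
  have hb2 : (2 : ℝ) ≤ b := by exact_mod_cast hb
  have hbs : 1 < b ^ s := Nat.one_lt_pow (by omega) (by omega)
  have hbsR : (2 : ℝ) ≤ (b : ℝ) ^ s := by exact_mod_cast hbs
  set X : ℕ → ℤ := fun i => ⌊x * (b : ℝ) ^ i⌋ with hX
  have hrec : ∀ i, X (i + 1) = b * X i + digit b x (i + 1) := fun i => floor_succ hb x i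
  refine ⟨X (r + s) - X r, ?_⟩
  have key : ∀ k, r + s + k ≤ R → X (r + s + k) - X (r + k) = b ^ k * (X (r + s) - X r) := by
    intro k
    induction k with
    | zero => intro _; simp
    | succ k ih =>
      intro hk
      have h1 := ih (by omega)
      have h2 := hrec (r + s + k)
      have h3 := hrec (r + k)
      have h4 := h (r + k + 1) (by omega) (by omega)
      have e1 : r + s + (k + 1) = r + s + k + 1 := by ring
      have e2 : r + (k + 1) = r + k + 1 := by ring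
      have e3 : r + k + 1 + s = r + s + k + 1 := by ring
      rw [e3] at h4
      rw [e1, e2, h2, h3, h4, pow_succ]
      linear_combination (b : ℤ) * h1
  obtain ⟨k, rfl⟩ : ∃ k, R = r + s + k := ⟨R - (r + s), by omega⟩
  have h1 := key k le_rfl
  have hf1 : ((X (r + s + k) : ℤ) : ℝ) ≤ x * (b : ℝ) ^ (r + s + k) := Int.floor_le _
  have hf2 : x * (b : ℝ) ^ (r + s + k) < (X (r + s + k) : ℤ) + 1 := Int.lt_floor_add_one _
  have hf3 : ((X (r + k) : ℤ) : ℝ) ≤ x * (b : ℝ) ^ (r + k) := Int.floor_le _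
  have hf4 : x * (b : ℝ) ^ (r + k) < (X (r + k) : ℤ) + 1 := Int.lt_floor_add_one _
  have h1' : ((X (r + s + k) : ℤ) : ℝ) - (X (r + k) : ℤ) = (b : ℝ) ^ k * ((X (r + s) - X r : ℤ) : ℝ) := by
    exact_mod_cast h1
  set A : ℝ := ((X (r + s) - X r : ℤ) : ℝ) with hA
  have hq : ((b ^ r * (b ^ s - 1) : ℕ) : ℝ) = (b : ℝ) ^ r * ((b : ℝ) ^ s - 1) := by
    rw [Nat.cast_mul, Nat.cast_sub hbs.le]
    push_cast
    ring
  rw [hq]
  have hd : (0 : ℝ) < (b : ℝ) ^ s - 1 := by linarith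
  have hbr : (0 : ℝ) < (b : ℝ) ^ r := by positivity
  have hbk : (0 : ℝ) < (b : ℝ) ^ k := by positivity
  have e1 : x * (b : ℝ) ^ (r + s + k) - x * (b : ℝ) ^ (r + k) =
      x * ((b : ℝ) ^ k * ((b : ℝ) ^ r * ((b : ℝ) ^ s - 1))) := by
    rw [pow_add, pow_add, pow_add]
    ring
  have h5 : |x * ((b : ℝ) ^ k * ((b : ℝ) ^ r * ((b : ℝ) ^ s - 1))) - (b : ℝ) ^ k * A| ≤ 1 := by
    rw [← e1, ← h1', abs_le]
    constructor <;> linarith
  have h6 : |x - A / ((b : ℝ) ^ r * ((b : ℝ) ^ s - 1))| * ((b : ℝ) ^ k * ((b : ℝ) ^ r * ((b : ℝ) ^ s - 1))) ≤ 1 := by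
    have hpos : (0 : ℝ) < (b : ℝ) ^ k * ((b : ℝ) ^ r * ((b : ℝ) ^ s - 1)) := by positivity
    rw [← abs_of_pos hpos, ← abs_mul]
    refine le_trans (le_of_eq ?_) h5
    congr 1
    field_simp
  rw [le_div_iff₀ (by positivity)]
  have h7 : (b : ℝ) ^ (r + s + k) ≤ 2 * ((b : ℝ) ^ k * ((b : ℝ) ^ r * ((b : ℝ) ^ s - 1))) := by
    have e2 : (b : ℝ) ^ (r + s + k) = (b : ℝ) ^ k * ((b : ℝ) ^ r * (b : ℝ) ^ s) := by
      rw [pow_add, pow_add]; ring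
    rw [e2]
    have h8 : (b : ℝ) ^ s ≤ 2 * ((b : ℝ) ^ s - 1) := by linarith
    have h9 : (b : ℝ) ^ k * ((b : ℝ) ^ r * (b : ℝ) ^ s) ≤ (b : ℝ) ^ k * ((b : ℝ) ^ r * (2 * ((b : ℝ) ^ s - 1))) := by
      gcongr
    linarith
  calc |x - A / ((b : ℝ) ^ r * ((b : ℝ) ^ s - 1))| * (b : ℝ) ^ (r + s + k)
      ≤ |x - A / ((b : ℝ) ^ r * ((b : ℝ) ^ s - 1))| *
        (2 * ((b : ℝ) ^ k * ((b : ℝ) ^ r * ((b : ℝ) ^ s - 1)))) :=
        mul_le_mul_of_nonneg_left h7 (abs_nonneg _)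
    _ ≤ 2 := by linarith

end Pool.Agent.Zk75.ZM
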