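import Pool.Agent.TH900.OM.PB
import Pool.Agent.H510R2.Div

/-!
# Primes in a short window which do not divide the denominators of periodic expansions
-/

set_option autoImplicit false

open Filter Topology

namespace Pool.Agent.Zk75.ZM

open Pool.Agent.TH900.OM

/-- the primes `1 mod 24` of the window `((25/46) L, 0.54358 L]` -/
noncomputable def W (L : ℝ) : Finset ℕ :=
  (Finset.Icc 1 ⌊(0.54358 : ℝ) * L⌋₊).filter
    (fun p => p.Prime ∧ p % 24 = 1 ∧ (25 / 46 : ℝ) * L < p)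

lemma mem_W {L : ℝ} (hL : 0 ≤ L) {p : ℕ} :
    p ∈ W L ↔ p.Prime ∧ p % 24 = 1 ∧ (25 / 46 : ℝ) * L < p ∧ (p : ℝ) ≤ 0.54358 * L := by
  unfold W
  rw [Finset.mem_filter, Finset.mem_Icc]
  constructor
  · rintro ⟨⟨_, h2⟩, h3, h4, h5⟩
    exact ⟨h3, h4, h5, (Nat.le_floor_iff (by positivity)).1 h2⟩
  · rintro ⟨h3, h4, h5, h6⟩
    exact ⟨⟨h3.one_le, (Nat.le_floor_iff (by positivity)).2 h6⟩, h3, h4, h5⟩

/-- the window contains many primes -/
theorem card_W : ∃ L0 : ℝ, 1 ≤ L0 ∧ ∀ L : ℝ, L0 ≤ L →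
    L ≤ 100000 * (((W L).card : ℝ) * Real.log L) := by
  obtain ⟨L0, hL0, h⟩ := prime_between 100000 (by norm_num) (25 / 46) 0.54358 (by norm_num)
    (by norm_num)
  refine ⟨L0, hL0, fun L hL => ?_⟩
  have hL1 : 1 ≤ L := hL0.trans hL
  by_contra hcon
  push Not at hcon
  set b : ℕ := ∏ p ∈ W L, p ^ 100000 with hb
  have hpos : ∀ p ∈ W L, 0 < p := fun p hp => ((mem_W (by linarith)).1 hp).1.pos
  have hb0 : 0 < b := Finset.prod_pos fun p hp => pow_pos (hpos p hp) _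
  have hlog : Real.log b ≤ 100000 * (((W L).card : ℝ) * Real.log L) := by
    have e1 : ((b : ℕ) : ℝ) = ∏ p ∈ W L, (p : ℝ) ^ 100000 := by rw [hb]; push_cast; rfl
    rw [e1, Real.log_prod (fun p hp => by
      have := hpos p hp
      positivity)]
    calc ∑ p ∈ W L, Real.log ((p : ℝ) ^ 100000) ≤ ∑ _p ∈ W L, 100000 * Real.log L := by
          apply Finset.sum_le_sum
          intro p hp
          rw [Real.log_pow]
          push_cast
          have h1 := (mem_W (by linarith)).1 hp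
          have h2 : (0 : ℝ) < p := by exact_mod_cast hpos p hp
          have h3 : (p : ℝ) ≤ L := by linarith [h1.2.2.2]
          have := Real.log_le_log h2 h3
          linarith
      _ = _ := by rw [Finset.sum_const, nsmul_eq_mul]; ring
  obtain ⟨p, hp1, hp2, hp3, hp4, hp5⟩ := h L hL b hb0 (hlog.trans hcon.le)
  exact hp5 (Finset.dvd_prod_of_mem (fun p => p ^ 100000) ((mem_W (by linarith)).2 ⟨hp1, hp2, hp3, hp4⟩))

/-- few primes divide a number -/
lemma card_le_of_dvd {S : Finset ℕ} {N k t b : ℕ} (hN : N + 1 = b ^ t) (hN0 : 0 < N) (hbk : b ≤ 2 ^ k)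
    (hS : ∀ p ∈ S, p.Prime ∧ p ∣ N) : S.card ≤ k * t := by
  have h1 : S ⊆ N.primeFactors := fun p hp =>
    Nat.mem_primeFactors.2 ⟨(hS p hp).1, (hS p hp).2, hN0.ne'⟩
  have h2 : 2 ^ N.primeFactors.card ≤ ∏ p ∈ N.primeFactors, p := by
    rw [← Finset.prod_const]
    exact Finset.prod_le_prod' fun p hp => (Nat.prime_of_mem_primeFactors hp).two_le
  have h3 : ∏ p ∈ N.primeFactors, p ≤ N := Nat.le_of_dvd hN0 (Nat.prod_primeFactors_dvd N)
  have h4 : N < 2 ^ (k * t) := by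
    have : b ^ t ≤ 2 ^ (k * t) := by
      rw [pow_mul]
      exact Nat.pow_le_pow_left hbk t
    omega
  have h5 : 2 ^ N.primeFactors.card < 2 ^ (k * t) := (h2.trans h3).trans_lt h4
  have h6 := (Nat.pow_lt_pow_iff_right (by norm_num : 1 < 2)).1 h5
  exact (Finset.card_le_card h1).trans h6.le

/-- few numbers are `1` modulo `t` -/
lemma card_le_of_mod {S : Finset ℕ} {M t : ℕ} (ht : 0 < t)
    (hS : ∀ p ∈ S, 1 ≤ p ∧ p ≤ M ∧ t ∣ p - 1) : S.card ≤ M / t + 1 := by
  have : S.card ≤ (Finset.range (M / t + 1)).card := by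
    apply Finset.card_le_card_of_injOn (fun p => (p - 1) / t)
    · intro p hp
      have h := hS p hp
      simp only [Finset.coe_range, Set.mem_Iio]
      have : (p - 1) / t ≤ M / t := Nat.div_le_div_right (by omega)
      omega
    · intro p hp p' hp' hpp
      have h := hS p hp
      have h' := hS p' hp'
      simp only at hpp
      have e1 := Nat.div_mul_cancel h.2.2
      have e2 := Nat.div_mul_cancel h'.2.2
      rw [hpp] at e1
      omega
  rwa [Finset.card_range] at this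

/-- few primes of the window belong to the order `t` -/
lemma card_order {S : Finset ℕ} {L : ℝ} (hL : 1 ≤ L) {k t b : ℕ} (hb : 2 ≤ b) (ht : 0 < t)
    (htL : (t : ℝ) ≤ 2 * L) (hbk : b ≤ 2 ^ k)
    (hS : ∀ p ∈ S, p ∈ W L ∧ p ∣ b ^ t - 1 ∧ t ∣ p - 1) :
    (S.card : ℝ) ≤ Real.sqrt (3 * k * L) := by
  have hbt : 1 < b ^ t := Nat.one_lt_pow ht.ne' (by omega)
  have h1 : S.card ≤ k * t := card_le_of_dvd (N := b ^ t - 1) (b := b) (by omega) (by omega) hbk
    fun p hp => ⟨((mem_W (by linarith)).1 (hS p hp).1).1, (hS p hp).2.1⟩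
  have h2 : S.card ≤ ⌊L⌋₊ / t + 1 := card_le_of_mod ht fun p hp => by
    have h3 := (mem_W (by linarith)).1 (hS p hp).1
    refine ⟨h3.1.one_le, Nat.le_floor ?_, (hS p hp).2.2⟩
    linarith [h3.2.2.2]
  have h3 : (S.card : ℝ) ≤ k * t := by exact_mod_cast h1
  have ht0 : (0 : ℝ) < t := by exact_mod_cast ht
  have h4 : (S.card : ℝ) ≤ L / t + 1 := by
    have h5 : ((⌊L⌋₊ / t : ℕ) : ℝ) ≤ (⌊L⌋₊ : ℝ) / t := Nat.cast_div_le
    have h6 : (⌊L⌋₊ : ℝ) ≤ L := Nat.floor_le (by linarith)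
    have h7 : (⌊L⌋₊ : ℝ) / t ≤ L / t := by gcongr
    have h8 : (S.card : ℝ) ≤ ((⌊L⌋₊ / t : ℕ) : ℝ) + 1 := by exact_mod_cast h2
    linarith
  apply Real.le_sqrt_of_sq_le
  have hk0 : (0 : ℝ) ≤ k := Nat.cast_nonneg _
  calc (S.card : ℝ) ^ 2 = S.card * S.card := sq _
    _ ≤ (k * t) * (L / t + 1) := mul_le_mul h3 h4 (Nat.cast_nonneg _) (by positivity)
    _ = k * L + k * t := by field_simp
    _ ≤ 3 * k * L := by nlinarith

/-- the comparison of the growth rates -/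
lemma growth (C : ℝ) : ∃ L0 : ℝ, 1 ≤ L0 ∧ ∀ L : ℝ, L0 ≤ L →
    C * (L ^ (1 / 4 : ℝ) * Real.sqrt L) * Real.log L < L := by
  have h1 := (isLittleO_log_rpow_atTop (r := 1 / 4) (by norm_num)).bound
    (show (0 : ℝ) < 1 / (2 * (|C| + 1)) by positivity)
  obtain ⟨L1, hL1⟩ := eventually_atTop.1 h1
  refine ⟨max 1 L1, le_max_left _ _, fun L hL => ?_⟩
  have hL1' : 1 ≤ L := (le_max_left _ _).trans hL
  have h2 := hL1 L ((le_max_right _ _).trans hL)
  have hlog : 0 ≤ Real.log L := Real.log_nonneg hL1'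
  rw [Real.norm_of_nonneg hlog, Real.norm_of_nonneg (by positivity)] at h2
  have hL0 : 0 < L := by linarith
  have h3 : L ^ (1 / 4 : ℝ) * Real.sqrt L * L ^ (1 / 4 : ℝ) = L := by
    rw [Real.sqrt_eq_rpow, ← Real.rpow_add hL0, ← Real.rpow_add hL0]
    norm_num
  calc C * (L ^ (1 / 4 : ℝ) * Real.sqrt L) * Real.log L
      ≤ (|C| + 1) * (L ^ (1 / 4 : ℝ) * Real.sqrt L) * (1 / (2 * (|C| + 1)) * L ^ (1 / 4 : ℝ)) := by
        have h4 : C ≤ |C| + 1 := by linarith [le_abs_self C]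
        gcongr
    _ = 1 / 2 * (L ^ (1 / 4 : ℝ) * Real.sqrt L * L ^ (1 / 4 : ℝ)) := by
        field_simp
    _ < L := by rw [h3]; linarith

lemma lcm_pos {ι : Type} {T : Finset ι} {f : ι → ℕ} (h : ∀ j ∈ T, 0 < f j) : 0 < T.lcm f := by
  rw [Nat.pos_iff_ne_zero, Ne, Finset.lcm_eq_zero_iff]
  simp only [Set.mem_image, Finset.mem_coe, not_exists, not_and]
  exact fun j hj => (h j hj).ne'

/-- a prime of the window does not divide the common denominator -/
theorem periodic_window {ι : Type} (T : Finset ι) (b : ι → ℕ) (hb : ∀ j ∈ T, 2 ≤ b j) :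
    ∃ L0 : ℝ, 1 ≤ L0 ∧ ∀ r s : ι → ℕ, (∀ j ∈ T, 1 ≤ s j) → ∀ L : ℝ, L0 ≤ L →
      Real.log (T.lcm (fun j => b j ^ r j * (b j ^ s j - 1)) : ℕ) ≤ L →
      ∃ p : ℕ, p.Prime ∧ p % 24 = 1 ∧ (25 / 46 : ℝ) * L < p ∧ (p : ℝ) ≤ 0.54358 * L ∧
        ¬ p ∣ T.lcm (fun j => b j ^ r j * (b j ^ s j - 1)) := by
  classical
  obtain ⟨L1, hL1, hW⟩ := card_W
  obtain ⟨C, hC, hdiv⟩ := Pool.Agent.H510R2.divisor_bound (1 / 4) (by norm_num)
  set k : ℕ := ∑ j ∈ T, b j with hk
  set D : ℝ := 100000 * ((T.card : ℝ) * (C * 2 ^ (1 / 4 : ℝ) * Real.sqrt (3 * k))) with hD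
  obtain ⟨L2, hL2, hG⟩ := growth D
  refine ⟨max L1 (max L2 (2 * k + 3)), hL1.trans (le_max_left _ _), fun r s hs L hL hq => ?_⟩
  set q := T.lcm (fun j => b j ^ r j * (b j ^ s j - 1)) with hqdef
  have hLL1 : L1 ≤ L := (le_max_left _ _).trans hL
  have hLL2 : L2 ≤ L := (le_max_left _ _).trans ((le_max_right _ _).trans hL)
  have hLL3 : 2 * (k : ℝ) + 3 ≤ L := (le_max_right _ _).trans ((le_max_right _ _).trans hL)
  have hk0 : (0 : ℝ) ≤ k := Nat.cast_nonneg _
  have hL1' : 1 ≤ L := by linarith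
  have hL0 : 0 < L := by linarith
  have hbs : ∀ j ∈ T, 1 < b j ^ s j := fun j hj =>
    Nat.one_lt_pow (by have := hs j hj; omega) (by have := hb j hj; omega)
  have hpos : ∀ j ∈ T, 0 < b j ^ r j * (b j ^ s j - 1) := fun j hj => by
    have h1 := hbs j hj
    have h2 := hb j hj
    exact Nat.mul_pos (pow_pos (by omega) _) (by omega)
  have hq0 : 0 < q := lcm_pos hpos
  -- the periods are at most `2 L`
  have hs2 : ∀ j ∈ T, (s j : ℝ) ≤ 2 * L := by
    intro j hj
    have h1 : b j ^ r j * (b j ^ s j - 1) ≤ q := Nat.le_of_dvd hq0 (Finset.dvd_lcm hj)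
    have h2 : b j ^ s j - 1 ≤ q := (Nat.le_mul_of_pos_left _ (pow_pos (by have := hb j hj; omega) _)).trans h1
    have h3 : b j ^ s j ≤ 2 * q := by omega
    have h4 : 2 ^ s j ≤ 2 * q := (Nat.pow_le_pow_left (hb j hj) _).trans h3
    have h5 : (2 : ℝ) ^ s j ≤ 2 * q := by exact_mod_cast h4
    have hqr : (0 : ℝ) < q := by exact_mod_cast hq0
    have h6 := Real.log_le_log (by positivity) h5
    rw [Real.log_pow, Real.log_mul (by norm_num) hqr.ne'] at h6
    have h7 := Real.log_two_gt_d9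
    have h8 := Real.log_two_lt_d9
    nlinarith [(Nat.cast_nonneg (s j) : (0 : ℝ) ≤ s j)]
  by_contra hcon
  push Not at hcon
  have hall : ∀ p ∈ W L, p ∣ q := fun p hp => by
    obtain ⟨h1, h2, h3, h4⟩ := (mem_W hL0.le).1 hp
    exact hcon p h1 h2 h3 h4
  -- the classes
  let S : ι → ℕ → Finset ℕ := fun j t => (W L).filter (fun p => p ∣ b j ^ t - 1 ∧ t ∣ p - 1)
  have hcover : W L ⊆ T.biUnion (fun j => (s j).divisors.biUnion (fun t => S j t)) := by
    intro p hp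
    obtain ⟨hp1, hp2, hp3, hp4⟩ := (mem_W hL0.le).1 hp
    have hpf : Fact p.Prime := ⟨hp1⟩
    have h1 := hall p hp
    have h2 : ∃ j ∈ T, p ∣ b j ^ r j * (b j ^ s j - 1) := by
      by_contra hno
      push Not at hno
      have h3 : q ∣ ∏ j ∈ T, b j ^ r j * (b j ^ s j - 1) := by
        apply Finset.lcm_dvd
        intro j hj
        exact Finset.dvd_prod_of_mem _ hj
      obtain ⟨j, hj, h4⟩ := (Prime.dvd_finset_prod_iff hp1.prime _).1 (h1.trans h3)
      exact hno j hj h4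
    obtain ⟨j, hj, h3⟩ := h2
    have hbj := hb j hj
    have hbp : b j < p := by
      have h4 : (b j : ℝ) ≤ k := by
        have : b j ≤ k := Finset.single_le_sum (f := b) (fun _ _ => Nat.zero_le _) hj
        exact_mod_cast this
      have h5 : (b j : ℝ) < p := by linarith
      exact_mod_cast h5
    have h4 : p ∣ b j ^ s j - 1 := by
      rcases (Nat.Prime.dvd_mul hp1).1 h3 with h5 | h5
      · exact absurd (Nat.le_of_dvd (by omega) (hp1.dvd_of_dvd_pow h5)) (by omega)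
      · exact h5
    have hcast : ∀ t : ℕ, 0 < t → (p ∣ b j ^ t - 1 ↔ ((b j : ℕ) : ZMod p) ^ t = 1) := by
      intro t ht
      rw [← ZMod.natCast_eq_zero_iff, Nat.cast_sub (Nat.one_le_pow _ _ (by omega))]
      push_cast
      rw [sub_eq_zero]
    have hsj := hs j hj
    have h5 := (hcast (s j) (by omega)).1 h4
    have h6 : orderOf ((b j : ℕ) : ZMod p) ∣ s j := orderOf_dvd_of_pow_eq_one h5
    have ht0 : 0 < orderOf ((b j : ℕ) : ZMod p) := Nat.pos_of_dvd_of_pos h6 (by omega)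
    rw [Finset.mem_biUnion]
    refine ⟨j, hj, ?_⟩
    rw [Finset.mem_biUnion]
    refine ⟨orderOf ((b j : ℕ) : ZMod p), Nat.mem_divisors.2 ⟨h6, by omega⟩, ?_⟩
    rw [Finset.mem_filter]
    refine ⟨hp, (hcast _ ht0).2 (pow_orderOf_eq_one _), ?_⟩
    apply ZMod.orderOf_dvd_card_sub_one
    intro h7
    rw [ZMod.natCast_eq_zero_iff] at h7
    exact absurd (Nat.le_of_dvd (by omega) h7) (by omega)
  have hSc : ∀ j ∈ T, ∀ t ∈ (s j).divisors, ((S j t).card : ℝ) ≤ Real.sqrt (3 * k * L) := by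
    intro j hj t ht
    have ht1 := Nat.mem_divisors.1 ht
    have ht0 : 0 < t := Nat.pos_of_dvd_of_pos ht1.1 (by have := hs j hj; omega)
    apply card_order hL1' (hb j hj) ht0
    · have h1 : t ≤ s j := Nat.le_of_dvd (by have := hs j hj; omega) ht1.1
      have h2 : (t : ℝ) ≤ s j := by exact_mod_cast h1
      linarith [hs2 j hj]
    · have h1 : b j ≤ k := Finset.single_le_sum (f := b) (fun _ _ => Nat.zero_le _) hj
      exact h1.trans Nat.lt_two_pow_self.le
    · intro p hp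
      exact Finset.mem_filter.1 hp
  have hcard : ((W L).card : ℝ) ≤ T.card * (C * (2 * L) ^ (1 / 4 : ℝ) * Real.sqrt (3 * k * L)) := by
    have h1 : (W L).card ≤ ∑ j ∈ T, ∑ t ∈ (s j).divisors, (S j t).card :=
      (Finset.card_le_card hcover).trans (Finset.card_biUnion_le.trans
        (Finset.sum_le_sum fun j _ => Finset.card_biUnion_le))
    calc ((W L).card : ℝ) ≤ ∑ j ∈ T, ∑ t ∈ (s j).divisors, ((S j t).card : ℝ) := by exact_mod_cast h1
      _ ≤ ∑ j ∈ T, (C * (2 * L) ^ (1 / 4 : ℝ) * Real.sqrt (3 * k * L)) := by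
          apply Finset.sum_le_sum
          intro j hj
          calc ∑ t ∈ (s j).divisors, ((S j t).card : ℝ)
              ≤ ∑ _t ∈ (s j).divisors, Real.sqrt (3 * k * L) := Finset.sum_le_sum (hSc j hj)
            _ = ((s j).divisors.card : ℝ) * Real.sqrt (3 * k * L) := by
                rw [Finset.sum_const, nsmul_eq_mul]
            _ ≤ _ := by
                have h2 := hdiv (s j) (hs j hj)
                have h3 : ((s j : ℕ) : ℝ) ^ (1 / 4 : ℝ) ≤ (2 * L) ^ (1 / 4 : ℝ) :=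
                  Real.rpow_le_rpow (Nat.cast_nonneg _) (hs2 j hj) (by norm_num)
                have h4 : ((s j).divisors.card : ℝ) ≤ C * (2 * L) ^ (1 / 4 : ℝ) :=
                  h2.trans (mul_le_mul_of_nonneg_left h3 hC.le)
                exact mul_le_mul_of_nonneg_right h4 (Real.sqrt_nonneg _)
      _ = _ := by rw [Finset.sum_const, nsmul_eq_mul]
  have hfin := hW L hLL1
  have hg := hG L hLL2
  have hlogL : 0 ≤ Real.log L := Real.log_nonneg hL1'
  have e1 : (2 * L) ^ (1 / 4 : ℝ) = 2 ^ (1 / 4 : ℝ) * L ^ (1 / 4 : ℝ) :=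
    Real.mul_rpow (by norm_num) hL0.le
  have e2 : Real.sqrt (3 * k * L) = Real.sqrt (3 * k) * Real.sqrt L :=
    Real.sqrt_mul (by positivity) _
  have h9 : 100000 * (((W L).card : ℝ) * Real.log L) ≤ D * (L ^ (1 / 4 : ℝ) * Real.sqrt L) * Real.log L := by
    have h10 := mul_le_mul_of_nonneg_right hcard hlogL
    rw [e1, e2] at h10
    rw [hD]
    linarith
  linarith

end Pool.Agent.Zk75.ZM
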