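import Pool.Agent.Zk75.ZM.Core
import Pool.Agent.Zk75.ZM.Window
import Pool.Agent.Zk75.ZM.Digits

/-!
# Restricted simultaneous measures for `ζ(11), …, ζ(27)`
-/

set_option autoImplicit false

open Filter Topology

namespace Pool.Agent.Zk75.ZM

/-- the odd numbers from `11` to `27` -/
def T : Finset ℕ := {11, 13, 15, 17, 19, 21, 23, 25, 27}

/-- `ζ(j) = ∑ 1/(n+1)^j` -/
noncomputable def zeta (j : ℕ) : ℝ := ∑' n : ℕ, 1 / ((n : ℝ) + 1) ^ j

/-- the measure of the library, for rational numbers with a common denominator -/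
lemma base_measure : ∃ c : ℝ, 0 < c ∧ ∀ (v : ℕ → ℚ) (q : ℕ), 0 < q → (∀ j ∈ T, (v j).den ∣ q) →
    ∃ j ∈ T, c / (q : ℝ) ^ 1628 ≤ |zeta j - v j| := by
  obtain ⟨c, hc, h⟩ := Pool.Agent.TH900.XM.measure
  refine ⟨c, hc, fun v q hq hv => ?_⟩
  have hex : ∀ j, ∃ a : ℤ, j ∈ T → ((v j : ℚ) : ℝ) = (a : ℝ) / q := by
    intro j
    by_cases hj : j ∈ T
    · obtain ⟨k, hk⟩ := hv j hj
      refine ⟨(v j).num * k, fun _ => ?_⟩
      have hd : ((v j).den : ℝ) ≠ 0 := by exact_mod_cast (v j).den_ne_zero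
      have hk0 : (k : ℝ) ≠ 0 := by
        intro h0
        have : k = 0 := by exact_mod_cast h0
        subst this
        omega
      have h1 : ((v j : ℚ) : ℝ) = ((v j).num : ℝ) / ((v j).den : ℝ) := by
        conv_lhs => rw [← Rat.num_div_den (v j)]
        push_cast
        rfl
      rw [h1, hk]
      push_cast
      field_simp
    · exact ⟨0, fun h => absurd h hj⟩
  choose a ha using hex
  obtain ⟨j, hj, h1⟩ := h a q hq
  refine ⟨j, hj, ?_⟩
  rw [ha j hj]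
  exact h1

/-- (1) a bound for every prime -/
theorem prime_bound : ∃ c : ℝ, 0 < c ∧ ∀ (p : ℕ) (v : ℕ → ℚ) (q : ℕ), p.Prime → p % 24 = 1 →
    0 < q → (∀ j ∈ T, (v j).den ∣ q) → Real.log q ≤ 1.84 * p → (∀ j ∈ T, ¬ p ^ j ∣ (v j).den) →
    ∃ j ∈ T, c * Real.exp (-(1280.4 * p)) ≤ |zeta j - v j| := by
  obtain ⟨n0, hcore⟩ := core
  obtain ⟨c, hc, hbase⟩ := base_measure
  have hT : ∀ i ∈ Pool.Agent.TH900.XM.I9, i + 8 ∈ T := by
    intro i hi
    fin_cases hi <;> decide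
  refine ⟨min 1 (c / Real.exp (1.84 * n0) ^ 1628), by positivity, fun p v q hp hp24 hq hv hlog hnd => ?_⟩
  have hqr : (0 : ℝ) < q := by exact_mod_cast hq
  rcases le_or_gt n0 p with hn | hn
  · obtain ⟨i, hi, h1⟩ := hcore p hn hp hp24 (fun i => v (i + 8)) q hq (fun i hi => hv _ (hT i hi)) hlog
      (fun i hi => hnd _ (hT i hi))
    refine ⟨i + 8, hT i hi, le_trans ?_ h1.le⟩
    calc min 1 (c / Real.exp (1.84 * n0) ^ 1628) * Real.exp (-(1280.4 * p)) ≤
        1 * Real.exp (-(1280.4 * p)) := by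
          apply mul_le_mul_of_nonneg_right (min_le_left _ _) (Real.exp_pos _).le
      _ = _ := one_mul _
  · obtain ⟨j, hj, h1⟩ := hbase v q hq hv
    refine ⟨j, hj, le_trans ?_ h1⟩
    have h2 : (p : ℝ) ≤ n0 := by exact_mod_cast hn.le
    have h3 : (q : ℝ) ≤ Real.exp (1.84 * n0) := by
      rw [← Real.log_le_iff_le_exp hqr]
      linarith
    have h4 : Real.exp (-(1280.4 * p)) ≤ 1 := by
      rw [Real.exp_le_one_iff]
      have : (0 : ℝ) ≤ p := Nat.cast_nonneg _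
      linarith
    have h5 : (q : ℝ) ^ 1628 ≤ Real.exp (1.84 * n0) ^ 1628 := pow_le_pow_left₀ hqr.le h3 _
    calc min 1 (c / Real.exp (1.84 * n0) ^ 1628) * Real.exp (-(1280.4 * p)) ≤
        (c / Real.exp (1.84 * n0) ^ 1628) * 1 :=
          mul_le_mul (min_le_right _ _) h4 (Real.exp_pos _).le (by positivity)
      _ = c / Real.exp (1.84 * n0) ^ 1628 := mul_one _
      _ ≤ c / (q : ℝ) ^ 1628 := by gcongr

/-- from a prime of the window to the exponent `696` -/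
lemma window_bound {L : ℝ} {p : ℕ} (hp : (p : ℝ) ≤ 0.54358 * L) (hL : 0 ≤ L) :
    Real.exp (-(696 * L)) ≤ Real.exp (-(1280.4 * p)) := by
  apply Real.exp_le_exp.2
  nlinarith

lemma exp_log_pow {q : ℕ} (hq : 0 < q) : Real.exp (-(696 * Real.log q)) = ((q : ℝ) ^ 696)⁻¹ := by
  have hqr : (0 : ℝ) < q := by exact_mod_cast hq
  rw [Real.exp_neg, show 696 * Real.log q = ((696 : ℕ) : ℝ) * Real.log q by push_cast; rfl,
    ← Real.log_pow, Real.exp_log (by positivity)]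

/-- the common part of (2) and (3) -/
lemma of_window (P : (ℕ → ℚ) → ℕ → Prop) (L0 : ℝ) (hP0 : ∀ v q, P v q → 0 < q ∧ ∀ j ∈ T, (v j).den ∣ q)
    (hP : ∀ v q, P v q → L0 ≤ Real.log q → ∃ p : ℕ, p.Prime ∧ p % 24 = 1 ∧
      (25 / 46 : ℝ) * Real.log q < p ∧ (p : ℝ) ≤ 0.54358 * Real.log q ∧ ∀ j ∈ T, ¬ p ^ j ∣ (v j).den) :
    ∃ c : ℝ, 0 < c ∧ ∀ v q, P v q → ∃ j ∈ T, c / (q : ℝ) ^ 696 ≤ |zeta j - v j| := by
  obtain ⟨c1, hc1, h1⟩ := prime_bound
  obtain ⟨c2, hc2, h2⟩ := base_measure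
  refine ⟨min c1 (c2 / Real.exp L0 ^ 1628), by positivity, fun v q hv => ?_⟩
  obtain ⟨hq, hd⟩ := hP0 v q hv
  have hqr : (0 : ℝ) < q := by exact_mod_cast hq
  have hq1 : (1 : ℝ) ≤ q := by exact_mod_cast hq
  rcases le_or_gt L0 (Real.log q) with hL | hL
  · obtain ⟨p, hp, hp24, hp1, hp2, hp3⟩ := hP v q hv hL
    obtain ⟨j, hj, h3⟩ := h1 p v q hp hp24 hq hd (by
      have : (1.84 : ℝ) * (25 / 46 * Real.log q) = Real.log q := by ring
      nlinarith) hp3
    refine ⟨j, hj, le_trans ?_ h3⟩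
    have h4 := window_bound hp2 (Real.log_nonneg hq1)
    rw [exp_log_pow hq] at h4
    rw [div_eq_mul_inv]
    exact mul_le_mul (min_le_left _ _) h4 (by positivity) hc1.le
  · obtain ⟨j, hj, h3⟩ := h2 v q hq hd
    refine ⟨j, hj, le_trans ?_ h3⟩
    have h4 : (q : ℝ) ≤ Real.exp L0 := by
      rw [← Real.log_le_iff_le_exp hqr]
      exact hL.le
    have h5 : (q : ℝ) ^ 1628 ≤ Real.exp L0 ^ 1628 := pow_le_pow_left₀ hqr.le h4 _
    calc min c1 (c2 / Real.exp L0 ^ 1628) / (q : ℝ) ^ 696 ≤ (c2 / Real.exp L0 ^ 1628) / 1 := by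
          apply div_le_div₀ (by positivity) (min_le_right _ _) one_pos (one_le_pow₀ hq1)
      _ = c2 / Real.exp L0 ^ 1628 := div_one _
      _ ≤ c2 / (q : ℝ) ^ 1628 := by gcongr

/-- (2) denominators without high powers of large primes -/
theorem plain_denominators : ∃ c : ℝ, 0 < c ∧ ∀ (v : ℕ → ℚ) (q : ℕ), 0 < q →
    (∀ j ∈ T, (v j).den ∣ q) →
    (∀ p : ℕ, p.Prime → Real.log q < 2 * p → ∀ j ∈ T, ¬ p ^ j ∣ (v j).den) →
    ∃ j ∈ T, c / (q : ℝ) ^ 696 ≤ |zeta j - v j| := by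
  obtain ⟨L0, hL0, hW⟩ := card_W
  obtain ⟨c, hc, h⟩ := of_window (fun v q => 0 < q ∧ (∀ j ∈ T, (v j).den ∣ q) ∧
    ∀ p : ℕ, p.Prime → Real.log q < 2 * p → ∀ j ∈ T, ¬ p ^ j ∣ (v j).den) L0
    (fun v q hv => ⟨hv.1, hv.2.1⟩) (fun v q hv hL => by
      have h1 := hW (Real.log q) hL
      have hL1 : 1 ≤ Real.log q := hL0.trans hL
      have hne : (W (Real.log q)).Nonempty := by
        by_contra hno
        rw [Finset.not_nonempty_iff_eq_empty] at hno
        rw [hno, Finset.card_empty] at h1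
        simp at h1
        linarith
      obtain ⟨p, hp⟩ := hne
      obtain ⟨hp1, hp2, hp3, hp4⟩ := (mem_W (by linarith)).1 hp
      exact ⟨p, hp1, hp2, hp3, hp4, hv.2.2 p hp1 (by linarith)⟩)
  exact ⟨c, hc, fun v q hq hd hp => h v q ⟨hq, hd, hp⟩⟩

/-- (3) periodic expansions, each number in its own base -/
theorem periodic_denominators (b : ℕ → ℕ) (hb : ∀ j ∈ T, 2 ≤ b j) : ∃ c : ℝ, 0 < c ∧
    ∀ (r s : ℕ → ℕ) (a : ℕ → ℤ), (∀ j ∈ T, 1 ≤ s j) → ∃ j ∈ T,
      c / ((T.lcm (fun j => b j ^ r j * (b j ^ s j - 1)) : ℕ) : ℝ) ^ 696 ≤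
        |zeta j - (a j : ℝ) / ((b j ^ r j * (b j ^ s j - 1) : ℕ) : ℝ)| := by
  obtain ⟨L0, hL0, hW⟩ := periodic_window T b hb
  obtain ⟨c, hc, h⟩ := of_window (fun v q => ∃ (r s : ℕ → ℕ) (a : ℕ → ℤ), (∀ j ∈ T, 1 ≤ s j) ∧
    q = T.lcm (fun j => b j ^ r j * (b j ^ s j - 1)) ∧
    ∀ j ∈ T, v j = (a j : ℚ) / ((b j ^ r j * (b j ^ s j - 1) : ℕ) : ℚ)) L0
    (by
      rintro v q ⟨r, s, a, hs, rfl, hv⟩
      have hpos : ∀ j ∈ T, 0 < b j ^ r j * (b j ^ s j - 1) := fun j hj => by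
        have h1 : 1 < b j ^ s j := Nat.one_lt_pow (by have := hs j hj; omega) (by have := hb j hj; omega)
        exact Nat.mul_pos (pow_pos (by have := hb j hj; omega) _) (by omega)
      refine ⟨lcm_pos hpos, fun j hj => ?_⟩
      refine dvd_trans ?_ (Finset.dvd_lcm hj)
      rw [hv j hj]
      have := Rat.den_dvd (a j) ((b j ^ r j * (b j ^ s j - 1) : ℕ) : ℤ)
      rw [Rat.divInt_eq_div] at this
      push_cast at this ⊢
      exact_mod_cast this)
    (by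
      rintro v q ⟨r, s, a, hs, rfl, hv⟩ hL
      obtain ⟨p, hp1, hp2, hp3, hp4, hp5⟩ := hW r s hs _ hL le_rfl
      refine ⟨p, hp1, hp2, hp3, hp4, fun j hj hdvd => hp5 ?_⟩
      have hj1 : j ≠ 0 := by
        rintro rfl
        exact absurd hj (by decide)
      refine (dvd_pow_self p hj1).trans (hdvd.trans ?_)
      refine dvd_trans ?_ (Finset.dvd_lcm hj)
      rw [hv j hj]
      have := Rat.den_dvd (a j) ((b j ^ r j * (b j ^ s j - 1) : ℕ) : ℤ)
      rw [Rat.divInt_eq_div] at this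
      push_cast at this ⊢
      exact_mod_cast this)
  refine ⟨c, hc, fun r s a hs => ?_⟩
  obtain ⟨j, hj, h1⟩ := h (fun j => (a j : ℚ) / ((b j ^ r j * (b j ^ s j - 1) : ℕ) : ℚ))
    (T.lcm (fun j => b j ^ r j * (b j ^ s j - 1))) ⟨r, s, a, hs, rfl, fun _ _ => rfl⟩
  refine ⟨j, hj, h1.trans (le_of_eq ?_)⟩
  push_cast
  rfl

/-- (4) periodic digits -/
theorem periodic_digits (b : ℕ → ℕ) (hb : ∀ j ∈ T, 2 ≤ b j) : ∃ C : ℝ,
    ∀ r s R : ℕ → ℕ, (∀ j ∈ T, 1 ≤ s j) →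
      (∀ j ∈ T, ∀ i, r j < i → i + s j ≤ R j →
        digit (b j) (zeta j) (i + s j) = digit (b j) (zeta j) i) →
      ∃ j ∈ T, R j * Real.log (b j) ≤
        696 * Real.log (T.lcm (fun j => b j ^ r j * (b j ^ s j - 1)) : ℕ) + C := by
  obtain ⟨c, hc, h⟩ := periodic_denominators b hb
  refine ⟨max (Real.log 2) (Real.log (2 / c)), fun r s R hs hper => ?_⟩
  set q := T.lcm (fun j => b j ^ r j * (b j ^ s j - 1)) with hq
  have hbs : ∀ j ∈ T, 1 < b j ^ s j := fun j hj =>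
    Nat.one_lt_pow (by have := hs j hj; omega) (by have := hb j hj; omega)
  have hpos : ∀ j ∈ T, 0 < b j ^ r j * (b j ^ s j - 1) := fun j hj => by
    have h1 := hbs j hj
    exact Nat.mul_pos (pow_pos (by have := hb j hj; omega) _) (by omega)
  have hq0 : 0 < q := lcm_pos hpos
  have hqr : (0 : ℝ) < q := by exact_mod_cast hq0
  have hlq : 0 ≤ Real.log q := Real.log_nonneg (by exact_mod_cast hq0)
  by_cases hall : ∀ j ∈ T, r j + s j ≤ R j
  · have hex : ∀ j, ∃ a : ℤ, j ∈ T → |zeta j - (a : ℝ) / ((b j ^ r j * (b j ^ s j - 1) : ℕ) : ℝ)| ≤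
        2 / (b j : ℝ) ^ R j := by
      intro j
      by_cases hj : j ∈ T
      · obtain ⟨a, ha⟩ := approx_of_periodic (hb j hj) (zeta j) (r j) (s j) (R j) (hs j hj) (hall j hj)
          (hper j hj)
        exact ⟨a, fun _ => ha⟩
      · exact ⟨0, fun h => absurd h hj⟩
    choose a ha using hex
    obtain ⟨j, hj, h1⟩ := h r s a hs
    refine ⟨j, hj, ?_⟩
    have h2 := h1.trans (ha j hj)
    have hbj : (0 : ℝ) < b j := by
      have := hb j hj
      exact_mod_cast (by omega : 0 < b j)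
    have h3 : (b j : ℝ) ^ R j ≤ 2 / c * (q : ℝ) ^ 696 := by
      rw [div_le_div_iff₀ (by positivity) (by positivity)] at h2
      rw [div_mul_eq_mul_div, le_div_iff₀ hc]
      linarith
    have h4 := Real.log_le_log (by positivity) h3
    rw [Real.log_pow, Real.log_mul (by positivity) (by positivity), Real.log_pow] at h4
    push_cast at h4
    have := le_max_right (Real.log 2) (Real.log (2 / c))
    linarith
  · push Not at hall
    obtain ⟨j, hj, h1⟩ := hall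
    refine ⟨j, hj, ?_⟩
    have hbj : (0 : ℝ) < b j := by
      have := hb j hj
      exact_mod_cast (by omega : 0 < b j)
    have hbj1 : (1 : ℝ) ≤ b j := by
      have := hb j hj
      exact_mod_cast (by omega : 1 ≤ b j)
    have h2 : b j ^ r j * (b j ^ s j - 1) ≤ q := Nat.le_of_dvd hq0 (Finset.dvd_lcm hj)
    have h3 : b j ^ (r j + s j) ≤ 2 * q := by
      have h4 := hbs j hj
      rw [pow_add]
      calc b j ^ r j * b j ^ s j ≤ b j ^ r j * (2 * (b j ^ s j - 1)) := Nat.mul_le_mul_left _ (by omega)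
        _ = 2 * (b j ^ r j * (b j ^ s j - 1)) := by ring
        _ ≤ 2 * q := Nat.mul_le_mul_left _ h2
    have h4 : (b j : ℝ) ^ (r j + s j) ≤ 2 * q := by exact_mod_cast h3
    have h5 := Real.log_le_log (by positivity) h4
    rw [Real.log_pow, Real.log_mul (by norm_num) hqr.ne'] at h5
    have h6 : (R j : ℝ) * Real.log (b j) ≤ ((r j + s j : ℕ) : ℝ) * Real.log (b j) := by
      apply mul_le_mul_of_nonneg_right _ (Real.log_nonneg hbj1)
      exact_mod_cast h1.le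
    have := le_max_left (Real.log 2) (Real.log (2 / c))
    linarith

/-- (5) periodic digits in one base -/
theorem periodic_digits_one (b : ℕ) (hb : 2 ≤ b) : ∃ C : ℝ, ∀ r s R : ℕ, 1 ≤ s →
    (∀ j ∈ T, ∀ i, r < i → i + s ≤ R → digit b (zeta j) (i + s) = digit b (zeta j) i) →
    (R : ℝ) ≤ 696 * (r + s) + C := by
  obtain ⟨C, h⟩ := periodic_digits (fun _ => b) (fun _ _ => hb)
  have hb0 : (0 : ℝ) < b := by positivity
  have hlb : 0 < Real.log b := Real.log_pos (by exact_mod_cast (by omega : 1 < b))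
  refine ⟨C / Real.log b, fun r s R hs hper => ?_⟩
  obtain ⟨j, hj, h1⟩ := h (fun _ => r) (fun _ => s) (fun _ => R) (fun _ _ => hs) hper
  have hlcm : T.lcm (fun _ => b ^ r * (b ^ s - 1)) ∣ b ^ r * (b ^ s - 1) :=
    Finset.lcm_dvd fun _ _ => dvd_rfl
  have hbs : 1 < b ^ s := Nat.one_lt_pow (by omega) (by omega)
  have hpos : 0 < b ^ r * (b ^ s - 1) := Nat.mul_pos (pow_pos (by omega) _) (by omega)
  have h2 : T.lcm (fun _ => b ^ r * (b ^ s - 1)) ≤ b ^ (r + s) := by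
    refine (Nat.le_of_dvd hpos hlcm).trans ?_
    rw [pow_add]
    exact Nat.mul_le_mul_left _ (by omega)
  have h3 : Real.log (T.lcm (fun _ => b ^ r * (b ^ s - 1)) : ℕ) ≤ (r + s) * Real.log b := by
    have h4 : (0 : ℝ) < ((T.lcm (fun _ => b ^ r * (b ^ s - 1)) : ℕ) : ℝ) := by
      have : 0 < T.lcm (fun _ : ℕ => b ^ r * (b ^ s - 1)) := lcm_pos fun _ _ => hpos
      exact_mod_cast this
    have h5 : ((T.lcm (fun _ => b ^ r * (b ^ s - 1)) : ℕ) : ℝ) ≤ (b : ℝ) ^ (r + s) := by exact_mod_cast h2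
    have h6 := Real.log_le_log h4 h5
    rw [Real.log_pow] at h6
    push_cast at h6
    exact h6
  have h7 : (R : ℝ) * Real.log b ≤ (696 * (r + s) + C / Real.log b) * Real.log b := by
    rw [add_mul, div_mul_cancel₀ _ hlb.ne']
    linarith
  exact le_of_mul_le_mul_right h7 hlb

end Pool.Agent.Zk75.ZM
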